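import Pool.Agent.Lib.ZK47.SDefs
import Pool.Agent.Lib.KP.Defs

/-! Project zk, outer layer: the target statement and the blueprint. -/

open scoped Classical Topology ContDiff ComplexOrder Matrix ENNReal Manifold
open Set MeasureTheory Complex Metric Filter

noncomputable section

namespace Pool.Agent.Lib.ZK47

open Pool.Agent.Lib.SV (E)
open Pool.Agent.Lib.HS32
open Pool.Agent.Lib.HS (inChart)
open Pool.Agent.Lib.GH (Kaehler)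
open Pool.Agent.Lib.ZL (PshOn)

/-- The target. -/
def St_TOP : Prop := ∀ (n : ℕ) (X ι I : Type) [TopologicalSpace X] [ChartedSpace (E n) X]
  [IsManifold 𝓘(ℂ, E n) ω X] [CompactSpace X] [T2Space X] [ConnectedSpace X] [Fintype I]
  (G : X → Mat n) (U : ι → Set X) (f : I → ι → X → ℂ) (u : I → ι → ι → X → ℂ) (b : I → ℝ),
  Kaehler G → KltR n U f u b → NefR n G U u b →
  ∃ ψ : ι → X → EReal, Glue U u b ψ ∧ ∀ i, ∀ x ∈ U i, ∃ V ∈ 𝓝 (chartAt (E n) x x),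
    PshOn (fun z => ψ i ((chartAt (E n) x).symm z) + (Real.log (inChart G x z).det.re : ℝ)) V ∧
    ∀ c : ℝ, 0 < c → ∫⁻ z in V, EReal.exp (-(c * ψ i ((chartAt (E n) x).symm z))) < ⊤

/-- A regularised boundary in the class of `B`. -/
structure Rg {n : ℕ} (M : Mf n) (H B : M.Fam (Mat n)) (χ lam : ℝ → M.X → ℝ) (C q : ℝ) : Prop where
  q1 : 1 < q
  sm : ∀ d ∈ Ioc (0 : ℝ) 1, M.Sm (χ d)
  le : ∀ d ∈ Ioc (0 : ℝ) 1, ∀ x, χ d x ≤ 0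
  ct : ∀ d ∈ Ioc (0 : ℝ) 1, Continuous (lam d)
  bd : ∀ d ∈ Ioc (0 : ℝ) 1, ∀ x, 0 ≤ lam d x ∧ lam d x ≤ C
  cur : ∀ d ∈ Ioc (0 : ℝ) 1, M.All fun e z =>
    (B e z + M.hs (χ d) e z + lam d (e.symm z) • H e z).PosSemidef
  itg : ∀ d ∈ Ioc (0 : ℝ) 1, ∫ x, Real.exp (-(q * χ d x)) ∂M.mu H ≤ C
  sml : Tendsto (fun d => ∫ x, lam d x ∂M.mu H) (𝓝[>] 0) (𝓝 0)

/-- The class of `K + B` is nef. -/
def Nf {n : ℕ} (M : Mf n) (H B : M.Fam (Mat n)) : Prop :=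
  ∀ ε : ℝ, 0 < ε → ∃ w, M.Sm w ∧ M.Kae (B - M.ric H + ε • H + M.hs w)

/-- Smooth approximations with uniformly integrable exponentials. -/
structure Out {n : ℕ} (M : Mf n) (H B : M.Fam (Mat n)) (a : ℝ → M.X → ℝ) : Prop where
  sm : ∀ ε ∈ Ioc (0 : ℝ) 1, M.Sm (a ε)
  kae : ∀ ε ∈ Ioc (0 : ℝ) 1, M.Kae (B - M.ric H + ε • H + M.hs (a ε))
  le : ∀ ε ∈ Ioc (0 : ℝ) 1, ∀ x, a ε x ≤ 0
  itg : ∀ m : ℝ, 0 < m → ∃ ε₀ C : ℝ, 0 < ε₀ ∧ ∀ ε ∈ Ioc (0 : ℝ) 1, ε ≤ ε₀ →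
    ∫ x, Real.exp (-(m * a ε x)) ∂M.mu H ≤ C

/-- The theorem on the manifold layer. -/
def St_MAIN : Prop := ∀ (n : ℕ) (M : Mf n) [M.Cpt] (H B : M.Fam (Mat n)) (χ lam : ℝ → M.X → ℝ)
  (C q : ℝ), M.Kae H → M.Clo B → Rg M H B χ lam C q → Nf M H B → ∃ a, Out M H B a

/-- The regularisation of a klt divisor. -/
def St_REG : Prop := ∀ (n : ℕ) (M : Mf n) [M.Cpt] (H : M.Fam (Mat n)) (I : Type) [Fintype I]
  (L : I → M.Co) (f : I → M.Fam ℂ) (φ : I → M.Fam ℝ) (b : I → ℝ) (c : ℝ), M.Met H →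
  (∀ k, M.HSecC (L k) (f k)) → (∀ k, M.WtC (L k) (φ k)) → (∀ k, 0 < b k) → 1 < c →
  (∀ x, ∃ e ∈ M.C, x ∈ e.source ∧ ∃ W ∈ 𝓝 (e x),
    ∫⁻ z in W, ∏ k, ‖f k e z‖ₑ ^ (-2 * (c * b k)) < ⊤) →
  ∃ χ lam C, Rg M H (fun e z => ∑ k, b k • M.hw (φ k) e z) χ lam C c

/-- The limit metric. -/
def St_LIMK : Prop := ∀ (n : ℕ) (M : Mf n) [M.Cpt] (H B : M.Fam (Mat n)) (a : ℝ → M.X → ℝ),
  M.Met H → Out M H B a → ∃ A : M.X → EReal, ∀ e ∈ M.C, ∀ x ∈ e.source, ∀ ρ : E n → ℝ,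
    (∀ᶠ z in 𝓝 (e x), ContDiffAt ℝ ∞ ρ z ∧
      hess (fun w => (ρ w : ℂ)) z = B e z - M.ric H e z) →
    ∃ V ∈ 𝓝 (e x), PshOn (fun z => A (e.symm z) + (ρ z : ℝ)) V ∧
      ∀ c : ℝ, 0 < c → ∫⁻ z in V, EReal.exp (-(c * A (e.symm z))) < ⊤

end Pool.Agent.Lib.ZK47
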