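import Pool.Agent.Lib.ZK47.Blue
import Pool.Agent.Lib.KP.B_BRG
import Pool.Agent.Lib.KP.B_WT
import Pool.Agent.Lib.HW.Br

/-! Project zk, outer layer: from the manifold layer to the statement. -/

open scoped Classical Topology ContDiff ComplexOrder Matrix ENNReal Manifold
open Set MeasureTheory Complex Metric Filter

noncomputable section

namespace Pool.Agent.Lib.ZK47

open Pool.Agent.Lib.SV (E)
open Pool.Agent.Lib.HS32 Pool.Agent.Lib.HS.BBR Pool.Agent.Lib.RB.R32 Pool.Agent.Lib.KP.T6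
open Pool.Agent.Lib.HS (inChart)
open Pool.Agent.Lib.ZL (PshOn)

namespace Br

variable {n : ℕ}

theorem hsum {κ : Type} {s : Finset κ} {f : κ → E n → ℝ} {b : κ → ℝ} {z : E n}
    (hf : ∀ a, ContDiffAt ℝ ∞ (f a) z) :
    hess (fun w => ((∑ a ∈ s, b a * f a w : ℝ) : ℂ)) z =
      ∑ a ∈ s, b a • hess (fun w => (f a w : ℂ)) z := by
  induction s using Finset.induction_on with
  | empty => simp
  | insert a s ha ih =>
    simp only [Finset.sum_insert ha, ofReal_add, ofReal_mul]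
    rw [hess_add (contDiffAt_const.mul (cd_ofReal (hf a)))
      (cd_ofReal (ContDiffAt.sum fun b _ => contDiffAt_const.mul (hf b))), ih,
      hess_const_mul _ (cd_ofReal (hf a))]
    rfl

theorem mono {f : E n → EReal} {U V : Set (E n)} (h : PshOn f U) (hV : V ⊆ U) : PshOn f V :=
  ⟨h.usc.mono hV, fun z hz => h.lt z (hV hz), fun z v hv => h.sub z v fun ζ hζ => hV (hv ζ hζ)⟩

theorem ex_le {c r K : ℝ} (hc : 0 < c) (h : K ≤ r) (A : EReal) :
    EReal.exp (-(c * (r + A))) ≤ ENNReal.ofReal (Real.exp (-(c * K))) * EReal.exp (-(c * A)) := by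
  induction A using EReal.rec with
  | bot =>
    rw [EReal.coe_mul_bot_of_pos hc, EReal.neg_bot, EReal.exp_top,
      ENNReal.mul_top (ENNReal.ofReal_pos.2 (Real.exp_pos _)).ne']
    exact le_top
  | coe t =>
    rw [← EReal.coe_add, ← EReal.coe_mul, ← EReal.coe_neg, EReal.exp_coe, ← EReal.coe_mul,
      ← EReal.coe_neg, EReal.exp_coe, ← ENNReal.ofReal_mul (Real.exp_pos _).le, ← Real.exp_add]
    exact ENNReal.ofReal_le_ofReal (Real.exp_le_exp.2 (by nlinarith))
  | top =>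
    rw [EReal.coe_add_top, EReal.coe_mul_top_of_pos hc, EReal.neg_top, EReal.exp_bot]
    exact zero_le

variable {X ι I : Type} [TopologicalSpace X] [ChartedSpace (E n) X] [Fintype I]

theorem frq {v : I → X → ℂ} {x : X} {c : I → ℝ} (hc : ∀ k, 0 < c k) {W : Set (E n)}
    (hW : W ∈ 𝓝 (chartAt (E n) x x))
    (h : ∫⁻ z in W, ∏ k, ‖v k ((chartAt (E n) x).symm z)‖ₑ ^ (-2 * c k) < ⊤) (k : I) :
    ∃ᶠ y in 𝓝 x, v k y ≠ 0 := by
  intro h0
  have h1 := ((chartAt (E n) x).tendsto_symm (mem_chart_source (E n) x)).eventually h0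
  obtain ⟨V, hV, h2, h3⟩ := _root_.mem_nhds_iff.1 (inter_mem hW h1)
  refine h.ne (top_le_iff.1 (le_trans ?_ (lintegral_mono_set (hV.trans inter_subset_left))))
  rw [setLIntegral_congr_fun (g := fun _ => ⊤) h2.measurableSet fun z hz => by
    have : v k ((chartAt (E n) x).symm z) = 0 := not_not.1 (hV hz).2
    refine WithTop.prod_eq_top_iff.2 ⟨⟨k, Finset.mem_univ k, ?_⟩, fun j _ => ?_⟩
    · simp only [this, enorm_zero]
      exact ENNReal.zero_rpow_of_neg (by linarith [hc k])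
    · intro h4
      rcases ENNReal.rpow_eq_zero_iff.1 h4 with ⟨-, h⟩ | ⟨h, -⟩
      · linarith [hc j]
      · exact enorm_ne_top h]
  rw [setLIntegral_const, ENNReal.top_mul (h2.measure_pos volume ⟨_, h3⟩).ne']

theorem coc {U : ι → Set X} {f : ι → X → ℂ} {u : ι → ι → X → ℂ} (ho : ∀ i, IsOpen (U i))
    (hu : ∀ i j, ∀ x ∈ U i ∩ U j, KP.HolAt n 0 (u i j) x ∧ u i j x ≠ 0 ∧ f i x = u i j x * f j x)
    (h0 : ∀ i, ∀ x ∈ U i, ∃ᶠ y in 𝓝 x, f i y ≠ 0) (a b d : ι) (x : X) (ha : x ∈ U a)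
    (hb : x ∈ U b) (hd : x ∈ U d) : u a d x = u a b x * u b d x := by
  refine tendsto_nhds_unique_of_frequently_eq (l := 𝓝 x) (hol_cont (hu a d x ⟨ha, hd⟩).1)
    ((hol_cont (hu a b x ⟨ha, hb⟩).1).mul (hol_cont (hu b d x ⟨hb, hd⟩).1)) ?_
  refine ((h0 d x hd).and_eventually ((((ho a).inter (ho b)).inter
    (ho d)).mem_nhds ⟨⟨ha, hb⟩, hd⟩)).mono fun y hy => mul_right_cancel₀ hy.1 ?_
  obtain ⟨-, ⟨ya, yb⟩, yd⟩ := hy
  rw [← (hu a d y ⟨ya, yd⟩).2.2, Pi.mul_apply, mul_assoc, ← (hu b d y ⟨yb, yd⟩).2.2,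
    ← (hu a b y ⟨ya, yb⟩).2.2]

variable [IsManifold 𝓘(ℂ, E n) ω X]

theorem ex_co {U : ι → Set X} (ho : ∀ k, IsOpen (U k)) (hc : ∀ x, ∃ k, x ∈ U k)
    {f : ι → X → ℂ} {u : ι → ι → X → ℂ} {i : OpenPartialHomeomorph X (E n) → ι}
    (hi : ∀ e ∈ (rs (mf n X) (U := U) ho hc).C, e.source ⊆ U (i e))
    (hf : ∀ i, ∀ x ∈ U i, KP.HolAt n 0 (f i) x)
    (hu : ∀ i j, ∀ x ∈ U i ∩ U j, KP.HolAt n 0 (u i j) x ∧ u i j x ≠ 0 ∧ f i x = u i j x * f j x)
    (h0 : ∀ a b d x, x ∈ U a → x ∈ U b → x ∈ U d → u a d x = u a b x * u b d x) :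
    ∃ L : (rs (mf n X) (U := U) ho hc).Co, (∀ e e' x, L.c e e' x = u (i e') (i e) x) ∧
      (rs (mf n X) (U := U) ho hc).HSecC L fun e z => f (i e) (e.symm z) := by
  set M := rs (mf n X) (U := U) ho hc
  obtain ⟨-, hov, -⟩ := mTR n M
  have f1 : M.All fun e z => DifferentiableAt ℂ (fun w => f (i e) (e.symm w)) z :=
    fun e he z hz => hol_chart (fun y => (he.1 y).2) hz (hf _ _ (hi e he (e.map_target hz)))
  refine ⟨{
      c := fun e e' x => u (i e') (i e) x
      hol := fun e he e' he' x hx hx' => by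
        filter_upwards [(hov e he e' he' x hx hx').2.2.2.1] with w hw
        exact hol_chart (fun y => (he'.1 y).2) hw.1
          (hu _ _ _ ⟨hi e' he' hw.2.2.1, hi e he hw.2.1⟩).1
      ne := fun e he e' he' x hx hx' => (hu _ _ _ ⟨hi e' he' hx', hi e he hx⟩).2.1
      mul := fun e he e' he' x hx hx' e'' he'' hx'' =>
        (h0 _ _ _ x (hi e'' he'' hx'') (hi e' he' hx') (hi e he hx)).trans (mul_comm _ _) },
    fun _ _ _ => rfl,
    ⟨fun e he z hz => ((mHOL n _ _).2.2 (f1.ev he hz)).1, fun e he e' he' x hx hx' => ?_⟩, f1⟩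
  beta_reduce
  rw [e.left_inv hx, e'.left_inv hx', mul_comm]
  exact (hu _ _ x ⟨hi e' he' hx', hi e he hx⟩).2.2

end Br

open Br in
theorem bBRG (hR : St_REG) (hL : St_LIMK) (hM : St_MAIN) : St_TOP := by
  intro n X ι I _ _ _ _ _ _ _ G U f u b hG hK hN
  let M : Mf n := rs (mf n X) (U := U) hK.opn hK.cov
  have cpt : M.Cpt := ⟨‹_›, ‹_›, ‹_›⟩
  have hc : ∀ x : X, chartAt (E n) x ∈ (mf n X).C := HW.ch_mem
  obtain ⟨r, r1, r2, r3, r4⟩ : ∃ r : X → OpenPartialHomeomorph X (E n), (∀ x, r x ∈ M.C) ∧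
      (∀ x, x ∈ (r x).source) ∧ (∀ x, (r x : X → E n) = chartAt (E n) x) ∧
      ∀ x, ((r x).symm : E n → X) = (chartAt (E n) x).symm := by
    choose r r1 r2 r3 r4 using fun x : X =>
      restr (mf n X) (U := U) hK.opn hK.cov (hc x) (mem_chart_source (E n) x)
    exact ⟨r, r1, r2, r3, r4⟩
  have hι : ∀ e : OpenPartialHomeomorph X (E n), ∃ i, e ∈ M.C → e.source ⊆ U i := fun e => by
    by_cases he : e ∈ M.C
    · exact he.2.imp fun _ hi _ => hi
    · obtain ⟨x⟩ : Nonempty X := inferInstance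
      exact (hK.cov x).imp fun _ _ h => absurd h he
  choose i hi using hι
  obtain ⟨c, c1, c2⟩ := hK.lct
  have nf : ∀ k j, ∀ x ∈ U j, ∃ᶠ y in 𝓝 x, f k j y ≠ 0 := fun k j x hx =>
    let ⟨_, a, a'⟩ := c2 j x hx
    frq (v := fun k => f k j) (fun k => mul_pos (one_pos.trans c1) (hK.pos k)) a a' k
  choose L L1 L2 using fun k => ex_co hK.opn hK.cov hi (hK.hol k) (hK.unit k)
    (coc hK.opn (hK.unit k) (nf k))
  choose φ hφ using fun k => KP.st_WT n M (L k)
  have g1 := HW.kae hG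
  let H : M.Fam (Mat n) := fam (X := X) G
  have kH : M.Kae H := ⟨⟨⟨⟨fun e he => g1.sm e he.1, fun e he e' he' => g1.cmp e he.1 e' he'.1⟩,
    fun e he => g1.herm e he.1⟩, fun e he => g1.cl e he.1⟩, fun e he => g1.pos e he.1⟩
  have fr : ∀ x, H (r x) = inChart G x := fun x => by
    funext z
    change (jm (chartAt (E n) ((r x).symm z) ∘ (r x).symm) z)ᴴ * G ((r x).symm z) *
      jm (chartAt (E n) ((r x).symm z) ∘ (r x).symm) z = _
    rw [r4]
    rfl
  let B : M.Fam (Mat n) := fun e z => ∑ k, b k • M.hw (φ k) e z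
  have cB : M.Clo B := by
    have : ∀ s : Finset I, M.Clo fun e z => ∑ k ∈ s, b k • M.hw (φ k) e z := fun s => by
      induction s using Finset.induction_on with
      | empty => exact Mf.clo_zero.congr fun _ _ _ _ => by simp
      | insert a s ha ih =>
        exact (((hφ a).clo.smul (b a)).add ih).congr fun _ _ _ _ => by
          simp only [Finset.sum_insert ha, Pi.add_apply, Pi.smul_apply]
    exact this _
  have key : ∀ p : ι → X → ℝ, Glue U u b (fun i x => p i x) → (∀ j, ∀ x ∈ U j,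
      ContDiffAt ℝ ∞ (p j ∘ (chartAt (E n) x).symm) (chartAt (E n) x x)) →
      ∃ g : X → ℝ, M.Sm g ∧ ∀ e : OpenPartialHomeomorph X (E n), e ∈ M.C → ∀ j, ∀ z ∈ e.target,
        e.symm z ∈ U j → ContDiffAt ℝ ∞ (p j ∘ e.symm) z ∧
          hess (fun w => (p j (e.symm w) : ℂ)) z = B e z + M.hs g e z := by
    intro p p1 p2
    have gl : ∀ a a', ∀ x ∈ U a ∩ U a',
        p a x = p a' x + ∑ k, b k * Real.log (normSq (u k a a' x)) := fun a a' x hx =>
      EReal.coe_eq_coe_iff.1 ((p1 a a' x hx).trans (EReal.coe_add _ _).symm)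
    have sp : ∀ e : OpenPartialHomeomorph X (E n), e ∈ M.C → ∀ j, ∀ z ∈ e.target,
        e.symm z ∈ U j → ContDiffAt ℝ ∞ (p j ∘ e.symm) z := fun e he j z hz hj => by
      have : ContDiffAt ℝ ∞ (p j ∘ e.symm) (e (e.symm z)) :=
        ((mTR n (mf n X)).2.2.2.1 ℝ (p j)).2.1 _ (hc (e.symm z)) e he.1 _
          (mem_chart_source (M := X) (E n) _) (e.map_target hz) (p2 j _ hj)
      rwa [e.right_inv hz] at this
    let Φ : M.Fam ℝ := fun (e : OpenPartialHomeomorph X (E n)) z =>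
      p (i e) (e.symm z) - ∑ k, b k * φ k e z
    have iv : M.Inv Φ := by
      intro (e : OpenPartialHomeomorph X (E n)) he (e' : OpenPartialHomeomorph X (E n)) he' (x : X)
        hx hx'
      have a1 : ∀ k, φ k e' (e' x) = φ k e (e x) + Real.log (normSq (u k (i e') (i e) x)) :=
        fun k => L1 k e e' x ▸ (hφ k).cmp e he e' he' x hx hx'
      change p (i e') (e'.symm (e' x)) - ∑ k, b k * φ k e' (e' x) =
        p (i e) (e.symm (e x)) - ∑ k, b k * φ k e (e x)
      simp only [e.left_inv hx, e'.left_inv hx', a1, mul_add, Finset.sum_add_distrib]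
      rw [gl (i e') (i e) x ⟨hi e' he' hx', hi e he hx⟩]
      ring
    have sg : M.Sm (M.ev Φ) := iv.sm fun e he z hz =>
      (sp e he _ z hz (hi e he (e.map_target hz))).sub
        (ContDiffAt.sum fun k _ => contDiffAt_const.mul ((hφ k).sm e he z hz))
    refine ⟨M.ev Φ, sg, fun e he j z hz hj => ⟨sp e he j z hz hj, ?_⟩⟩
    have ev : ∀ᶠ w in 𝓝 z, w ∈ e.target ∧ e.symm w ∈ U j :=
      (e.isOpen_inter_preimage_symm (hK.opn j)).mem_nhds ⟨hz, hj⟩
    have hu : ∀ k, ContDiffAt ℝ ∞ (fun w => Real.log (normSq (u k j (i e) (e.symm w)))) z ∧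
        hess (fun w => (Real.log (normSq (u k j (i e) (e.symm w))) : ℝ)) z = 0 := fun k => by
      have h1 : HolN (fun w => u k j (i e) (e.symm w)) z := ev.mono fun w hw =>
        hol_chart (fun y => (he.1 y).2) hw.1 (hK.unit k _ _ _ ⟨hw.2, hi e he (e.map_target hw.1)⟩).1
      obtain ⟨l1, l2, -⟩ := ((mHOL n _ _).2.2 h1).2.2.2
        (hK.unit k _ _ _ ⟨hj, hi e he (e.map_target hz)⟩).2.1
      exact ⟨l1, l2⟩
    have e1 : (fun w => (p j (e.symm w) : ℂ)) =ᶠ[𝓝 z] fun w =>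
        ((∑ k, b k * φ k e w : ℝ) : ℂ) + M.lc (M.ev Φ) e w +
          ((∑ k, b k * Real.log (normSq (u k j (i e) (e.symm w))) : ℝ) : ℂ) := by
      filter_upwards [ev] with w hw
      have a1 : M.lc (M.ev Φ) e w = ((p (i e) (e.symm w) - ∑ k, b k * φ k e w : ℝ) : ℂ) :=
        congrArg ofReal (iv.rep e he w hw.1)
      rw [gl j (i e) _ ⟨hw.2, hi e he (e.map_target hw.1)⟩, a1]
      push_cast
      ring
    have s1 := cd_ofReal (ContDiffAt.sum (s := Finset.univ) fun k _ =>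
      (contDiffAt_const (c := b k)).mul ((hφ k).sm e he z hz))
    rw [hess_congr e1, hess_add (s1.add (sg.lc e he z hz))
      (cd_ofReal (ContDiffAt.sum fun k _ => contDiffAt_const.mul (hu k).1)),
      hess_add s1 (sg.lc e he z hz), hsum fun k => (hφ k).sm e he z hz, hsum fun k => (hu k).1]
    simp only [(hu _).2, smul_zero, Finset.sum_const_zero, add_zero]
    rfl
  have sl : ∀ e ∈ M.C, ∀ z ∈ e.target, ContDiffAt ℝ ∞ (fun w => Real.log (H e w).det.re) z :=
    fun e he z hz => ((mCOF n _ _ (kH.sm e he z hz)).2.2.2.2.2 (Mf.AllOn.ev kH.pos he hz)).2.1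
  have cR := (mHES n M).2.2.2.2.2.2.2.2.1 _ kH.toMet
  have nf : Nf M H B := by
    intro ε hε
    obtain ⟨p, p1, p2⟩ := hN (ε / 2) (half_pos hε)
    obtain ⟨g, sg, hg⟩ := key p p1 fun j x hx => (p2 j x hx).1
    have hf : M.Clo (B - M.ric H + ε • H + M.hs g) :=
      ((cB.sub cR).add (kH.toClo.smul ε)).add ((mHES n M).1 g sg)
    have ctr : ∀ x : X, ((B - M.ric H + ε • H + M.hs g) (r x) (r x x)).PosDef := fun x => by
      have hz := (r x).map_source (r2 x)
      obtain ⟨j, hj⟩ := hK.cov x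
      obtain ⟨s1, s2⟩ := hg _ (r1 x) j _ hz (by rwa [(r x).left_inv (r2 x)])
      have e0 : H (r x) (r x x) = G x := by
        have := (mTR n (mf n X)).2.2.1 _ (hc x) x (mem_chart_source (M := X) (E n) x)
        have h0 : jm (chartAt (E n) x ∘ (chartAt (E n) x).symm) (chartAt (E n) x x) = 1 := this
        rw [fr, r3]
        change (jm (chartAt (E n) ((chartAt (E n) x).symm (chartAt (E n) x x)) ∘
          (chartAt (E n) x).symm) (chartAt (E n) x x))ᴴ *
          G ((chartAt (E n) x).symm (chartAt (E n) x x)) *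
          jm (chartAt (E n) ((chartAt (E n) x).symm (chartAt (E n) x x)) ∘
          (chartAt (E n) x).symm) (chartAt (E n) x x) = _
        rw [(chartAt (E n) x).left_inv (mem_chart_source (E n) x), h0]
        simp
      refine Matrix.PosDef.of_dotProduct_mulVec_pos (hf.herm _ (r1 x) _ hz) fun v hv => ?_
      have h1 := (p2 j x hj).2 v
      rw [← fr, ← r3, ← r4] at h1
      have h2 := (hG.pos x).dotProduct_mulVec_pos hv
      have h3 : hess (fun w => ((p j ((r x).symm w) + Real.log (H (r x) w).det.re : ℝ) : ℂ))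
          (r x x) = B (r x) (r x x) + M.hs g (r x) (r x x) - M.ric H (r x) (r x x) := by
        simp only [ofReal_add]
        refine (hess_add (cd_ofReal s1) (cd_ofReal (sl _ (r1 x) _ hz))).trans ?_
        rw [Mf.ric, sub_neg_eq_add, ← s2]
        rfl
      have h4 := HW.levi_eq (s1.add (sl _ (r1 x) _ hz)) v
      have h5 : (B - M.ric H + ε • H + M.hs g) (r x) (r x x) =
          ε • G x + (B (r x) (r x x) + M.hs g (r x) (r x x) - M.ric H (r x) (r x x)) := by
        simp only [Pi.add_apply, Pi.sub_apply, Pi.smul_apply, e0]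
        abel
      have h6 := (hf.herm _ (r1 x) _ hz).im_star_dotProduct_mulVec_self v
      refine Complex.pos_iff.2 ⟨?_, h6.symm⟩
      have h7 : -(ε / 2 * (star v ⬝ᵥ G x *ᵥ v).re) ≤
          nq (B (r x) (r x x) + M.hs g (r x) (r x x) - M.ric H (r x) (r x x)) v := by
        rw [← h3]
        exact h1.trans_eq h4
      rw [h5, Matrix.add_mulVec, dotProduct_add, add_re, Matrix.smul_mulVec, dotProduct_smul,
        smul_re, smul_eq_mul]
      have h8 := mul_pos hε (Complex.pos_iff.1 h2).1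
      rw [nq] at h7
      linarith
    refine ⟨g, sg, hf, Mf.allOn_of_source fun e he x hx => ?_⟩
    have h1 : (B - M.ric H + ε • H + M.hs g) e (e x) = _ := hf.cmp _ (r1 x) e he x (r2 x) hx
    rw [h1]
    exact (ctr x).conjTranspose_mul_mul_same (Matrix.mulVec_injective_iff_isUnit.2
      ((Matrix.isUnit_iff_isUnit_det _).2 ((mTR n M).2.1 _ (r1 x) e he x (r2 x) hx).2.1.isUnit))
  obtain ⟨χ, lam, C, hg⟩ := hR n M H I L _ φ b c kH.toMet L2 hφ hK.pos c1 fun x : X =>
    ⟨r x, r1 x, r2 x, by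
      have := c2 _ x (hi _ (r1 x) (r2 x))
      rw [← r3, ← r4] at this
      exact this⟩
  obtain ⟨a, ha⟩ := hM n M H B χ lam C c kH cB hg nf
  obtain ⟨A, hA⟩ := hL n M H B a kH.toMet ha
  obtain ⟨p, p1, p2⟩ := hN 1 one_pos
  obtain ⟨g, sg, hg⟩ := key p p1 fun j x hx => (p2 j x hx).1
  refine ⟨fun j x => (p j x - g x : ℝ) + A x, fun j j' x hx => ?_, fun j x hx => ?_⟩
  · have h1 : p j x = p j' x + ∑ k, b k * Real.log (normSq (u k j j' x)) :=
      EReal.coe_eq_coe_iff.1 ((p1 j j' x hx).trans (EReal.coe_add _ _).symm)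
    beta_reduce
    rw [add_right_comm, ← EReal.coe_add, h1]
    congr 2
    ring
  have hz := (r x).map_source (r2 x)
  have hx' : (r x).symm (r x x) ∈ U j := by rwa [(r x).left_inv (r2 x)]
  obtain ⟨V, V1, V2, V3⟩ := hA _ (r1 x) x (r2 x) (fun w =>
      p j ((r x).symm w) - g ((r x).symm w) + Real.log (H (r x) w).det.re) (by
    filter_upwards [((r x).isOpen_inter_preimage_symm (hK.opn j)).mem_nhds ⟨hz, hx'⟩] with w hw
    obtain ⟨s1, s2⟩ := hg _ (r1 x) j w hw.1 hw.2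
    have s3 := sg _ (r1 x) w hw.1
    refine ⟨(s1.sub s3).add (sl _ (r1 x) w hw.1), ?_⟩
    simp only [ofReal_add, ofReal_sub]
    refine (hess_add ((cd_ofReal s1).sub (cd_ofReal s3)) (cd_ofReal (sl _ (r1 x) w hw.1))).trans ?_
    refine (congrArg (· + _) (hess_sub (cd_ofReal s1) (cd_ofReal s3))).trans ?_
    rw [Mf.ric, sub_neg_eq_add]
    exact congrArg₂ (· + ·) (sub_eq_of_eq_add s2) rfl)
  have ct := ((hg _ (r1 x) j _ hz hx').1.sub (sg _ (r1 x) _ hz)).continuousAt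
  have V4 := ct.eventually (lt_mem_nhds (sub_one_lt _))
  rw [← fr, ← r3, ← r4]
  obtain ⟨O, O1, O2, O3⟩ := _root_.mem_nhds_iff.1 (inter_mem V1 V4)
  refine ⟨O, O2.mem_nhds O3, ?_, fun s hs => ?_⟩
  · have e : (fun z => ((p j ((r x).symm z) - g ((r x).symm z) : ℝ) : EReal) + A ((r x).symm z) +
        (Real.log (H (r x) z).det.re : ℝ)) = fun z => A ((r x).symm z) +
        ((p j ((r x).symm z) - g ((r x).symm z) + Real.log (H (r x) z).det.re : ℝ) : EReal) := by
      funext z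
      rw [EReal.coe_add, ← add_assoc, add_comm (A _)]
    exact e ▸ mono V2 fun z hz => (O1 hz).1
  · refine lt_of_le_of_lt (setLIntegral_mono' O2.measurableSet fun z hz =>
      ex_le hs (le_of_lt (O1 hz).2) (A ((r x).symm z))) ?_
    rw [lintegral_const_mul' _ _ ENNReal.ofReal_ne_top]
    exact ENNReal.mul_lt_top ENNReal.ofReal_lt_top
      (lt_of_le_of_lt (lintegral_mono_set fun z hz => (O1 hz).1) (V3 s hs))

end Pool.Agent.Lib.ZK47
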