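import Pool.Agent.Lib.KP.SDefs
import Pool.Agent.Lib.HW.SDefs
import Pool.Agent.Lib.ZL.SDefs2

/-! Definitions used in the statement: klt real divisors given by local equations, weights of
metrics on them, nef adjoint classes. -/

open scoped ContDiff Matrix Topology ENNReal
open MeasureTheory

noncomputable section

namespace Pool.Agent.Lib.ZK47

open Pool.Agent.Lib.SV Pool.Agent.Lib.HS Pool.Agent.Lib.KP Pool.Agent.Lib.HW

variable (n : ℕ) {X ι I : Type} [TopologicalSpace X] [ChartedSpace (E n) X] [Fintype I]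

/-- The functions `f k i` on the open sets `U i` of a covering are local equations of effective
divisors `D k` with transition functions `u k i j`, and `B = ∑ b k D k` is klt: the product of the
`|f k i| ^ (-2 c b k)` is locally integrable for some `c > 1`. -/
structure KltR (U : ι → Set X) (f : I → ι → X → ℂ) (u : I → ι → ι → X → ℂ) (b : I → ℝ) : Prop where
  opn : ∀ i, IsOpen (U i)
  cov : ∀ x, ∃ i, x ∈ U i
  pos : ∀ k, 0 < b k
  hol : ∀ k i, ∀ x ∈ U i, HolAt n 0 (f k i) x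
  unit : ∀ k i j, ∀ x ∈ U i ∩ U j,
    HolAt n 0 (u k i j) x ∧ u k i j x ≠ 0 ∧ f k i x = u k i j x * f k j x
  lct : ∃ c : ℝ, 1 < c ∧ ∀ i, ∀ x ∈ U i, ∃ W ∈ 𝓝 (chartAt (E n) x x),
    ∫⁻ z in W, ∏ k, ‖f k i ((chartAt (E n) x).symm z)‖ₑ ^ (-2 * (c * b k)) < ⊤

omit [TopologicalSpace X] in
/-- The functions `φ i` on `U i` are the local weights of a metric `exp (-φ)` on `B`. -/
def Glue (U : ι → Set X) (u : I → ι → ι → X → ℂ) (b : I → ℝ) (φ : ι → X → EReal) : Prop :=
  ∀ i j, ∀ x ∈ U i ∩ U j, φ i x = φ j x + (∑ k, b k * Real.log (Complex.normSq (u k i j x)) : ℝ)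

/-- The class `K + B` is nef: for every `ε > 0` it has a smooth metric `exp (-φ) / det G` whose
curvature form is at least `-ε G`. -/
def NefR (G : X → Mat n) (U : ι → Set X) (u : I → ι → ι → X → ℂ) (b : I → ℝ) : Prop :=
  ∀ ε : ℝ, 0 < ε → ∃ φ : ι → X → ℝ, Glue U u b (fun i x => φ i x) ∧ ∀ i, ∀ x ∈ U i,
    ContDiffAt ℝ ∞ (φ i ∘ (chartAt (E n) x).symm) (chartAt (E n) x x) ∧
    ∀ v, -(ε * (star v ⬝ᵥ G x *ᵥ v).re) ≤
      levi (fun z => φ i ((chartAt (E n) x).symm z) + Real.log (inChart G x z).det.re)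
        (chartAt (E n) x x) v

end Pool.Agent.Lib.ZK47
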