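import Pool.Agent.Lib.ZK47.Blue
import Pool.Agent.Lib.KP.B_KLI
import Pool.Agent.Lib.KP.B_PSI1
import Pool.Agent.Lib.KP.B_NHS

/-! Project zk, outer layer, row REG: the regularisation of a klt divisor. -/

open scoped Classical Topology ContDiff ComplexOrder Matrix ENNReal
open Set MeasureTheory Complex Metric Filter

noncomputable section

namespace Pool.Agent.Lib.ZK47

open Pool.Agent.Lib.SV (E)
open Pool.Agent.Lib.HS32 Pool.Agent.Lib.HS32.Mf

namespace REG

variable {n : ℕ} {M : Mf n} {I : Type}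

theorem hs_sum (s : Finset I) (b : I → ℝ) (g : I → M.X → ℝ) (hg : ∀ k, M.Sm (g k)) :
    M.All fun e z => M.hs (fun x => ∑ k ∈ s, b k * g k x) e z = ∑ k ∈ s, b k • M.hs (g k) e z := by
  intro e he z hz
  induction s using Finset.induction_on with
  | empty =>
    simp only [Finset.sum_empty]
    exact ((mLAP n M _ _ (sm_const (0 : ℝ)) (sm_const (0 : ℝ))).1 0 e he z hz).1
  | insert a s ha ih =>
    simp only [Finset.sum_insert ha]
    have h1 := ((mLAP n M _ _ ((hg a).const_mul (b a))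
      (Sm.sum (s := s) fun k _ => (hg k).const_mul (b k))).1 0 e he z hz).2.1
    have h2 := ((mLAP n M _ _ (hg a) (hg a)).1 (b a) e he z hz).2.2.2.1
    rw [h1, h2, ih]

theorem hs_sub {w : M.X → ℝ} (hw : M.Sm w) (m : ℝ) :
    M.All fun e z => M.hs (fun x => w x - m) e z = M.hs w e z := fun e he z hz => by
  obtain ⟨h0, -, h1, -⟩ := (mLAP n M w (fun _ => m) hw (sm_const m)).1 m e he z hz
  rw [h1, h0, sub_zero]

variable [Fintype I] [M.Cpt] {H : M.Fam (Mat n)} {L : I → M.Co} {f : I → M.Fam ℂ}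
  {φ : I → M.Fam ℝ} {β : I → ℝ}

theorem loc (hH : M.Met H) (hf : ∀ k, M.SecC (L k) (f k)) (hφ : ∀ k, M.WtC (L k) (φ k))
    (hl : ∀ x, ∃ e ∈ M.C, x ∈ e.source ∧ ∃ W ∈ 𝓝 (e x),
      ∫⁻ z in W, ∏ k, ‖f k e z‖ₑ ^ (-2 * β k) < ⊤) (x : M.X) :
    ∃ U ∈ 𝓝 x, ∫⁻ y in U, ∏ k, ENNReal.ofReal (M.nrC (φ k) (f k) y) ^ (-β k) ∂M.mu H < ⊤ := by
  obtain ⟨e, he, hx, W, hW, hI⟩ := hl x
  have hz := e.map_source hx
  have c1 : ContinuousAt (fun z => H e z) (e x) :=
    continuousAt_pi.2 fun i => continuousAt_pi.2 fun j => (hH.sm e he _ hz i j).continuousAt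
  have c2 : ContinuousAt (fun z => (H e z).det.re) (e x) :=
    (continuous_re.comp (continuous_id.matrix_det)).continuousAt.comp c1
  have c3 : ContinuousAt (fun z => (H e z).det.re * ∏ k, Real.exp (β k * φ k e z)) (e x) :=
    c2.mul (tendsto_finsetProd _ fun k _ =>
      (continuousAt_const.mul ((hφ k).sm e he _ hz).continuousAt).rexp)
  have c4 := c3.eventually (gt_mem_nhds (lt_add_one _))
  obtain ⟨B, hB, hBo, hxB⟩ :=
    _root_.mem_nhds_iff.1 (inter_mem (inter_mem hW (e.open_target.mem_nhds hz)) c4)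
  have hBt : B ⊆ e.target := fun z hz => (hB hz).1.2
  refine ⟨e.symm '' B, ?_, ?_⟩
  · have := e.symm.image_mem_nhds hz (hBo.mem_nhds hxB)
    rwa [e.left_inv hx] at this
  · rw [((mMU n M H hH).2.2.2.2.2.1 e he B hBo.measurableSet hBt).2.1]
    refine lt_of_le_of_lt (setLIntegral_mono' (g := fun z =>
      ENNReal.ofReal ((H e (e x)).det.re * ∏ k, Real.exp (β k * φ k e (e x)) + 1) *
        ∏ k, ‖f k e z‖ₑ ^ (-2 * β k)) hBo.measurableSet fun z hz => ?_) ?_
    · have h1 : ∀ k, ENNReal.ofReal (M.nrC (φ k) (f k) (e.symm z)) ^ (-β k) =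
          ENNReal.ofReal (Real.exp (β k * φ k e z)) * ‖f k e z‖ₑ ^ (-2 * β k) := fun k => by
        have h2 := (hφ k).nr_rep (hf k) e he z (hBt hz)
        beta_reduce at h2
        rw [h2, KP.T13.pw]
      simp only [h1]
      rw [Finset.prod_mul_distrib, ← mul_assoc,
        ← ENNReal.ofReal_prod_of_nonneg fun k _ => (Real.exp_pos _).le,
        ← ENNReal.ofReal_mul' (Finset.prod_nonneg fun k _ => (Real.exp_pos _).le)]
      exact mul_le_mul_left (ENNReal.ofReal_le_ofReal (le_of_lt (hB hz).2)) _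
    · rw [lintegral_const_mul' _ _ ENNReal.ofReal_ne_top]
      exact ENNReal.mul_lt_top ENNReal.ofReal_lt_top
        (lt_of_le_of_lt (lintegral_mono_set fun z hz => (hB hz).1.1) hI)

theorem glob (hH : M.Met H) (hf : ∀ k, M.SecC (L k) (f k)) (hφ : ∀ k, M.WtC (L k) (φ k))
    (hl : ∀ x, ∃ e ∈ M.C, x ∈ e.source ∧ ∃ W ∈ 𝓝 (e x),
      ∫⁻ z in W, ∏ k, ‖f k e z‖ₑ ^ (-2 * β k) < ⊤) :
    ∫⁻ y, ∏ k, ENNReal.ofReal (M.nrC (φ k) (f k) y) ^ (-β k) ∂M.mu H < ⊤ := by
  choose U hU hI using loc hH hf hφ hl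
  obtain ⟨t, -, ht⟩ := isCompact_univ.elim_nhds_subcover U fun x _ => hU x
  rw [← setLIntegral_univ]
  refine lt_of_le_of_lt (lintegral_mono_set ht) ?_
  clear ht
  induction t using Finset.induction_on with
  | empty => simp
  | insert a s ha ih =>
    rw [Finset.set_biUnion_insert]
    exact lt_of_le_of_lt (lintegral_union_le _ _ _) (ENNReal.add_lt_top.2 ⟨hI a, ih⟩)

omit [M.Cpt] in
theorem ne_of_lt {N β : I → ℝ} (hβ : ∀ k, 0 < β k)
    (h : ∏ k, ENNReal.ofReal (N k) ^ (-β k) < ⊤) (k : I) : N k ≠ 0 := by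
  intro h0
  rw [← Finset.mul_prod_erase _ _ (Finset.mem_univ k), h0, ENNReal.ofReal_zero,
    ENNReal.zero_rpow_of_neg (neg_lt_zero.2 (hβ k)), ENNReal.top_mul] at h
  · exact lt_irrefl _ h
  · refine Finset.prod_ne_zero_iff.2 fun j _ => ?_
    rw [ENNReal.rpow_neg, ENNReal.inv_ne_zero]
    exact ENNReal.rpow_ne_top_of_nonneg (hβ j).le ENNReal.ofReal_ne_top

omit [M.Cpt] in
theorem pt {N b : I → ℝ} {c d S : ℝ} (hc : 0 < c) (hb : ∀ k, 0 < b k) (hN : ∀ k, 0 ≤ N k)
    (hd : 0 < d) : ENNReal.ofReal (Real.exp (-(c * (∑ k, b k * Real.log (N k + d) - S)))) ≤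
      ENNReal.ofReal (Real.exp (c * S)) * ∏ k, ENNReal.ofReal (N k) ^ (-(c * b k)) := by
  have hp : ∀ k, 0 < N k + d := fun k => add_pos_of_nonneg_of_pos (hN k) hd
  have h1 : -(c * (∑ k, b k * Real.log (N k + d) - S)) =
      c * S + ∑ k, Real.log (N k + d) * -(c * b k) := by
    rw [mul_sub, Finset.mul_sum, neg_sub, sub_eq_add_neg, ← Finset.sum_neg_distrib]
    exact congrArg _ (Finset.sum_congr rfl fun k _ => by ring)
  rw [h1, Real.exp_add, ENNReal.ofReal_mul (Real.exp_pos _).le, Real.exp_sum,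
    ENNReal.ofReal_prod_of_nonneg fun k _ => (Real.exp_pos _).le]
  refine mul_le_mul_right (Finset.prod_le_prod' fun k _ => ?_) _
  rw [← Real.rpow_def_of_pos (hp k), ← ENNReal.ofReal_rpow_of_pos (hp k), ENNReal.rpow_neg,
    ENNReal.rpow_neg]
  exact ENNReal.inv_le_inv.2 (ENNReal.rpow_le_rpow
    (ENNReal.ofReal_le_ofReal (le_add_of_nonneg_right hd.le)) (mul_pos hc (hb k)).le)

end REG

theorem bREG : St_REG := by
  intro n M _ H I _ L f φ b c hH hf hφ hb hc hl
  have hc0 : 0 < c := by linarith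
  have hg := REG.glob (β := fun k => c * b k) hH (fun k => (hf k).toSecC) hφ hl
  obtain ⟨-, hfin, -, -, hint, -⟩ := mMU n M H hH
  have hN : ∀ k, M.Sm (M.nrC (φ k) (f k)) := fun k => (hφ k).nr_sm (hf k).toSecC
  have hN0 : ∀ k x, 0 ≤ M.nrC (φ k) (f k) x := fun k x => nrC_nonneg _ _ _
  choose A hA0 hA using fun k => (hN k).exists_bound
  choose K hK0 hK using fun k => KP.st_PSI1 KP.st_NHS n M H (L k) (f k) (φ k) hH (hf k) (hφ k)
  have hp : ∀ {d : ℝ}, 0 < d → ∀ k x, 0 < M.nrC (φ k) (f k) x + d := fun hd k x =>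
    add_pos_of_nonneg_of_pos (hN0 k x) hd
  have hlog : ∀ {d : ℝ}, 0 < d → ∀ k, M.Sm fun x => Real.log (M.nrC (φ k) (f k) x + d) :=
    fun hd k => ((hN k).add (sm_const _)).log fun x => (hp hd k x).ne'
  have hsum : ∀ {d : ℝ}, 0 < d →
      M.Sm fun x => ∑ k, b k * Real.log (M.nrC (φ k) (f k) x + d) :=
    fun hd => Sm.sum fun k _ => (hlog hd k).const_mul (b k)
  set S := ∑ k, b k * Real.log (A k + 1) with hS
  set J := ∫⁻ y, ∏ k, ENNReal.ofReal (M.nrC (φ k) (f k) y) ^ (-(c * b k)) ∂M.mu H with hJ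
  have hct : ∀ {d : ℝ}, 0 < d →
      Continuous fun x => ∑ k, b k * (K k * (d / (M.nrC (φ k) (f k) x + d))) := fun hd =>
    continuous_finsetSum _ fun k _ => continuous_const.mul (continuous_const.mul
      (continuous_const.div ((hN k).continuous.add continuous_const) fun x => (hp hd k x).ne'))
  have hbd : ∀ {d : ℝ}, 0 < d → ∀ x, 0 ≤ ∑ k, b k * (K k * (d / (M.nrC (φ k) (f k) x + d))) ∧
      ∑ k, b k * (K k * (d / (M.nrC (φ k) (f k) x + d))) ≤ ∑ k, b k * K k := fun hd x =>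
    ⟨Finset.sum_nonneg fun k _ => mul_nonneg (hb k).le
      (mul_nonneg (hK0 k).le (div_pos hd (hp hd k x)).le),
    Finset.sum_le_sum fun k _ => mul_le_mul_of_nonneg_left (mul_le_of_le_one_right (hK0 k).le
      ((div_le_one (hp hd k x)).2 (le_add_of_nonneg_left (hN0 k x)))) (hb k).le⟩
  refine ⟨fun d x => ∑ k, b k * Real.log (M.nrC (φ k) (f k) x + d) - S,
    fun d x => ∑ k, b k * (K k * (d / (M.nrC (φ k) (f k) x + d))),
    max (∑ k, b k * K k) (Real.exp (c * S) * J.toReal), hc,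
    fun d hd => (hsum hd.1).sub (sm_const _), fun d hd x => ?_, fun d hd => hct hd.1,
    fun d hd x => ⟨(hbd hd.1 x).1, (hbd hd.1 x).2.trans (le_max_left _ _)⟩,
    fun d hd e he z hz => ?_, fun d hd => le_trans ?_ (le_max_right _ _), ?_⟩
  · refine sub_nonpos.2 (Finset.sum_le_sum fun k _ => mul_le_mul_of_nonneg_left
      (Real.log_le_log (hp hd.1 k x) (add_le_add ?_ hd.2)) (hb k).le)
    exact (le_abs_self _).trans (hA k x)
  · have h1 := REG.hs_sub (hsum hd.1) S e he z hz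
    have h2 := REG.hs_sum Finset.univ b _ (hlog hd.1) e he z hz
    beta_reduce at h1 h2 ⊢
    rw [h1, h2, Finset.sum_smul, ← Finset.sum_add_distrib, ← Finset.sum_add_distrib]
    refine Matrix.posSemidef_sum _ fun k _ => ?_
    have h3 := psd_rsmul (hK k d hd.1 e he z hz) (hb k).le
    rwa [smul_add, smul_add, smul_smul] at h3
  · rw [integral_eq_lintegral_of_nonneg_ae (Eventually.of_forall fun x => (Real.exp_pos _).le)
      (((hsum hd.1).sub (sm_const S)).const_mul c).neg.exp.continuous.aestronglyMeasurable,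
      ← ENNReal.toReal_ofReal (Real.exp_pos (c * S)).le, ← ENNReal.toReal_mul,
      hJ, ← lintegral_const_mul' _ _ ENNReal.ofReal_ne_top]
    refine ENNReal.toReal_mono ?_ (lintegral_mono fun x => REG.pt hc0 hb (fun k => hN0 k x) hd.1)
    rw [lintegral_const_mul' _ _ ENNReal.ofReal_ne_top]
    exact ENNReal.mul_ne_top ENNReal.ofReal_ne_top hg.ne
  · have hm : Measurable fun y => ∏ k, ENNReal.ofReal (M.nrC (φ k) (f k) y) ^ (-(c * b k)) :=
      Finset.measurable_prod _ fun k _ => (hN k).continuous.measurable.ennreal_ofReal.pow_const _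
    have h := tendsto_integral_filter_of_dominated_convergence (μ := M.mu H) (l := 𝓝[>] (0 : ℝ))
      (F := fun d x => ∑ k, b k * (K k * (d / (M.nrC (φ k) (f k) x + d)))) (f := fun _ => 0)
      (fun _ => ∑ k, b k * K k)
      (eventually_mem_nhdsWithin.mono fun d hd => (hct hd).aestronglyMeasurable)
      (eventually_mem_nhdsWithin.mono fun d hd => Eventually.of_forall fun x => by
        rw [Real.norm_of_nonneg (hbd hd x).1]; exact (hbd hd x).2)
      (integrable_const _) ?_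
    · simpa only [integral_zero] using h
    · filter_upwards [ae_lt_top hm hg.ne] with x hx
      have h0 := REG.ne_of_lt (fun k => mul_pos hc0 (hb k)) hx
      have h1 : ContinuousAt
          (fun d : ℝ => ∑ k, b k * (K k * (d / (M.nrC (φ k) (f k) x + d)))) 0 :=
        tendsto_finsetSum _ fun k _ => continuousAt_const.mul (continuousAt_const.mul
          (continuousAt_id.div (continuousAt_const.add continuousAt_id)
            (by simpa using h0 k)))
      simpa only [zero_div, mul_zero, Finset.sum_const_zero] using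
        h1.tendsto.mono_left nhdsWithin_le_nhds

end Pool.Agent.Lib.ZK47
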