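import Pool.Agent.Lib.ZK47.Blue
import Pool.Agent.Lib.ZL.B_ZM
import Pool.Agent.Lib.ZL.B_LIM
import Pool.Agent.Lib.ZL.B_SMV

/-! Project zk, outer layer: the limit metric. -/

open scoped Classical Topology ContDiff ComplexOrder Matrix ENNReal
open Set MeasureTheory Complex Metric Filter

noncomputable section

namespace Pool.Agent.Lib.ZK47

open Pool.Agent.Lib.SV (E nsq)
open Pool.Agent.Lib.HS32 Pool.Agent.Lib.ZL Pool.Agent.Lib.EXS.K32

namespace Lim

theorem ls_add {α : Type} {l : Filter α} [l.NeBot] (F : α → EReal) {ρ : α → ℝ} {r : ℝ}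
    (h : Tendsto ρ l (𝓝 r)) : limsup (fun y => F y + ρ y) l = limsup F l + r := by
  have t : Tendsto (fun y => (ρ y : EReal)) l (𝓝 r) := (continuous_coe_real_ereal.tendsto _).comp h
  refine le_antisymm ?_ ?_
  · rw [← t.limsup_eq]
    exact EReal.limsup_add_le (Or.inr (t.limsup_eq ▸ EReal.coe_ne_top r))
      (Or.inr (t.limsup_eq ▸ EReal.coe_ne_bot r))
  · rw [← t.liminf_eq]
    exact EReal.le_limsup_add

variable {n : ℕ}

theorem nq0 {A : Mat n} (h : A.PosSemidef) (v : E n) : 0 ≤ nq A v :=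
  (Complex.nonneg_iff.1 (h.dotProduct_mulVec_nonneg v)).1

theorem nq4 (A B H : Mat n) (t C : ℝ) (v : E n) :
    nq (A + t • H + B) v + t * nq (C • (1 : Mat n) - H) v = nq B v + nq A v + t * (C * nsq v) := by
  have e : (star v ⬝ᵥ v).re = nsq v := by
    simp [dotProduct, nsq, normSq_apply]
  simp only [nq, Matrix.add_mulVec, Matrix.sub_mulVec, Matrix.smul_mulVec, Matrix.one_mulVec,
    dotProduct_add, dotProduct_sub, dotProduct_smul, add_re, sub_re, smul_re, smul_eq_mul, e]
  ring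

end Lim

open Lim in
theorem bLIMK : St_LIMK := by
  intro n M _ H B a hH ha
  let ε : ℕ → ℝ := fun j => 1 / (j + 1)
  have hε : Tendsto ε atTop (𝓝 0) := tendsto_one_div_add_atTop_nhds_zero_nat
  have ε1 : ∀ j, ε j ∈ Ioc (0 : ℝ) 1 := fun j =>
    ⟨Nat.one_div_pos_of_nat, (div_le_one (by positivity)).2 (by linarith [Nat.cast_nonneg (α := ℝ) j])⟩
  obtain ⟨-, -, -, -, hint, hch, -⟩ := mMU n M H hH
  have glob : ∀ c : ℝ, 0 < c →
      ∫⁻ x, EReal.exp (-(c * reg (fun j => a (ε j)) x)) ∂M.mu H < ⊤ := fun c hc => by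
    obtain ⟨ε₀, K, h0, hK⟩ := ha.itg c hc
    have h1 : ∀ x, limsup (fun j => (a (ε j) x : EReal)) atTop ≤ reg (fun j => a (ε j)) x :=
      fun x => le_limsup_of_frequently_le (Frequently.filter_mono
        (by rw [frequently_pure]) (pure_le_nhds x))
    have ct : ∀ j, Continuous fun x => Real.exp (-(c * a (ε j) x)) := fun j =>
      (continuous_const.mul (ha.sm _ (ε1 j)).continuous).neg.rexp
    refine lt_of_le_of_lt ((lintegral_mono (g := fun x => liminf
      (fun j => ENNReal.ofReal (Real.exp (-(c * a (ε j) x)))) atTop) fun x => ?_).trans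
      ((lintegral_liminf_le fun j => (ct j).measurable.ennreal_ofReal).trans
        (liminf_le_of_frequently_le' (x := ENNReal.ofReal K) (Eventually.frequently ?_))))
      ENNReal.ofReal_lt_top
    · simpa using ZM.fatou_pt hc 0 0 _ _ (h1 x)
    · filter_upwards [hε.eventually (ge_mem_nhds h0)] with j hj
      rw [← ofReal_integral_eq_lintegral_ofReal (hint ℝ _ (ct j))
        (.of_forall fun x => (Real.exp_pos _).le)]
      exact ENNReal.ofReal_le_ofReal (hK _ (ε1 j) hj)
  refine ⟨reg fun j => a (ε j), fun e he x hx ρ hρ => ?_⟩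
  obtain ⟨r, r0, hr⟩ := nhds_basis_closedBall.mem_iff.1
    (inter_mem (e.open_target.mem_nhds (e.map_source hx)) hρ)
  obtain ⟨C, C1, hC⟩ := (mBD n M H hH).2.2.1 e he _ (isCompact_closedBall (e x) r)
    fun z hz => (hr hz).1
  have sb : ball (e x) r ⊆ closedBall (e x) r := ball_subset_closedBall
  have hid : ∀ z : E n, HolN (fun w : E n => w) z := fun z =>
    .of_forall fun w => differentiableAt_id
  have sq : ∀ z : E n, ContDiffAt ℝ ∞ (fun y : E n => C * nsq y) z := fun z =>
    contDiffAt_const.mul (cd_nsq (hid z))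
  refine ⟨ball (e x) r, ball_mem_nhds _ r0, ZM.psh_cong (bLIM bSMV n _
    (fun j y => a (ε j) (e.symm y) + ρ y) (fun y => C * nsq y) ε isOpen_ball hε
    (fun z _ => sq z) (fun j z hz => ?_) fun z hz => ⟨ρ z + 1, ?_⟩) fun z hz => ?_,
    fun c hc => ?_⟩
  · obtain ⟨h1, h2, h3⟩ := hr (sb hz)
    have s1 : ContDiffAt ℝ ∞ (fun y => a (ε j) (e.symm y)) z := ha.sm _ (ε1 j) e he z h1
    refine ⟨(s1.add h2).add (contDiffAt_const.mul (sq z)), fun v => ?_⟩
    rw [lv_add (s1.add h2) (contDiffAt_const.mul (sq z)), lv_add s1 h2, lv_mul (sq z),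
      lv_mul (cd_nsq (hid z)), lv_nsq (hid z), lv, lv, h3]
    have p1 := nq0 ((ha.kae _ (ε1 j)).pos e he z h1).posSemidef v
    have p2 := mul_nonneg (ε1 j).1.le (nq0 (hC z (sb hz)).2.1 v)
    have p3 := nq4 (B e z - M.ric H e z) (M.hs (a (ε j)) e z) (H e z) (ε j) C v
    simp only [fderiv_fun_id, ContinuousLinearMap.id_apply]
    exact (add_nonneg p1 p2).trans_eq p3
  · filter_upwards [(hr (sb hz)).2.1.continuousAt.eventually (gt_mem_nhds (lt_add_one _))] with y hy j
    linarith [ha.le _ (ε1 j) (e.symm y)]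
  · simp only [reg, EReal.coe_add, fun y => ls_add (l := atTop)
      (fun j => (a (ε j) (e.symm y) : EReal)) (tendsto_const_nhds (x := ρ y))]
    rw [ls_add _ (hr (sb hz)).2.1.continuousAt, ← e.symm.map_nhds_eq (hr (sb hz)).1, ← limsup_comp]
    rfl
  · have h1 := (hch e he _ measurableSet_ball fun z hz => (hr (sb hz)).1).2.1
      fun x => EReal.exp (-(c * reg (fun j => a (ε j)) x))
    have h2 := (setLIntegral_le_lintegral (e.symm '' ball (e x) r) _).trans_lt (glob c hc)
    rw [h1] at h2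
    refine lt_of_le_of_lt (setLIntegral_mono' measurableSet_ball fun z hz => ?_)
      ((lintegral_const_mul' (ENNReal.ofReal C) _ ENNReal.ofReal_ne_top).trans_lt
        (ENNReal.mul_lt_top ENNReal.ofReal_lt_top h2))
    rw [← mul_assoc, ← ENNReal.ofReal_mul (zero_le_one.trans C1)]
    refine le_mul_of_one_le_left' (ENNReal.one_le_ofReal.2 ?_)
    exact (inv_le_iff_one_le_mul₀' (one_pos.trans_le C1)).1 (hC z (sb hz)).2.2.1

end Pool.Agent.Lib.ZK47
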