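import Pool.Agent.Lib.ZK.All1
import Pool.Agent.Lib.ZK.B_MAIN
import Pool.Agent.Lib.ZK47.B_BRG
import Pool.Agent.Lib.ZK47.B_REG
import Pool.Agent.Lib.ZK47.B_LIMK

/-! Project zk: the target statement, without hypotheses. -/

namespace Pool.Agent.Lib.ZK47

theorem aMAIN : St_MAIN := ZK.st_MAIN ZK.zk1

theorem aTOP : St_TOP := bBRG bREG bLIMK aMAIN

end Pool.Agent.Lib.ZK47
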